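import Mathlib
import Pool.Agent.H7.XR.A2
import Pool.Agent.H89.XR.C0

set_option autoImplicit false

open MeasureTheory Set Filter Topology
open scoped Real ENNReal

namespace Pool.Agent.H45.XR

/-- witnesses of membership in `Zset` -/
structure Wit (C : Set ℂ) (M : ℕ) (c : Fin 3 → ℤ) (κ : ℝ) (φ : Fin 3 → ℝ) (v : ℤ → ℝ) : Prop where
  per : ∀ x, v (x + M) = v x + 2 * π
  sep : ∀ x, v x + κ ≤ v (x + 1)
  rel : ∀ i x y, x + y = c i → x < y → y < x + M → Phi C (v x) (v y) = φ i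

theorem e_add_int (θ : ℝ) (s : ℤ) : e (θ + 2 * π * s) = e θ := by
  rw [e_add]
  have : e (2 * π * s) = 1 := by
    rw [e]
    push_cast
    rw [show (2 * (π : ℂ) * (s : ℂ) * Complex.I) = s * (2 * π * Complex.I) by ring]
    exact Complex.exp_int_mul_two_pi_mul_I s
  rw [this, mul_one]

theorem rad_add_int (C : Set ℂ) (θ : ℝ) (s : ℤ) : rad C (θ + 2 * π * s) = rad C θ := by
  unfold rad
  rw [e_add_int]

theorem Phi_add_int (C : Set ℂ) (θ θ' : ℝ) (s : ℤ) :
    Phi C (θ + 2 * π * s) (θ' + 2 * π * s) = Phi C θ θ' + 2 * π * s := by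
  unfold Phi
  rw [rad_add_int, rad_add_int]
  have : -(θ' + 2 * π * s - (θ + 2 * π * s)) = -(θ' - θ) := by ring
  rw [this]
  ring

theorem noSeg_add_int {C : Set ℂ} {φ : ℝ} (h : NoSeg C φ) (t : ℤ) : NoSeg C (φ + π * t) := by
  have key : ∀ z, tc (φ + π * t) z = (-1 : ℝ) ^ t * tc φ z := by
    intro z
    unfold tc
    rw [mul_comm π (t : ℝ), Real.cos_add_int_mul_pi, Real.sin_add_int_mul_pi]
    ring
  have hne : (-1 : ℝ) ^ t ≠ 0 := zpow_ne_zero _ (by norm_num)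
  intro p hp q hq hpq htc
  rw [key, key] at htc
  obtain ⟨z, hz, hz'⟩ := h p hp q hq hpq (mul_left_cancel₀ hne htc)
  exact ⟨z, hz, by rw [key, key, hz']⟩

namespace Wit

variable {C : Set ℂ} {M : ℕ} {c : Fin 3 → ℤ} {κ : ℝ} {φ φ' : Fin 3 → ℝ} {v w : ℤ → ℝ}

theorem add_mul (h : Wit C M c κ φ v) (x t : ℤ) : v (x + t * M) = v x + 2 * π * t := by
  induction t using Int.induction_on with
  | zero => simp
  | succ n ih =>
    have h1 := h.per (x + n * M)
    rw [ih] at h1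
    have h2 : x + ((n : ℤ) + 1) * M = x + n * M + M := by ring
    rw [h2, h1]
    push_cast
    ring
  | pred n ih =>
    have h1 := h.per (x + (-(n : ℤ) - 1) * M)
    have h2 : x + (-(n : ℤ) - 1) * M + M = x + (-(n : ℤ)) * M := by ring
    rw [h2, ih] at h1
    have h3 : v (x + (-(n : ℤ) - 1) * M) = v x + 2 * π * ((-(n : ℤ) : ℤ) : ℝ) - 2 * π := by
      linarith
    rw [h3]
    push_cast
    ring

theorem lt_add (h : Wit C M c κ φ v) (hκ : 0 < κ) {x y : ℤ} (hxy : x < y) : v x + κ ≤ v y := by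
  obtain ⟨n, hn⟩ : ∃ n : ℕ, y = x + n + 1 := ⟨(y - x - 1).toNat, by omega⟩
  subst hn
  induction n with
  | zero => simpa using h.sep x
  | succ n ih =>
    have h1 := ih (by omega)
    have h2 := h.sep (x + n + 1)
    have h3 : x + ((n + 1 : ℕ) : ℤ) + 1 = x + n + 1 + 1 := by push_cast; ring
    rw [h3]
    linarith

theorem dom (h : Wit C M c κ φ v) (hκ : 0 < κ) {x y : ℤ} (h1 : x < y) (h2 : y < x + M) :
    v x < v y ∧ v y < v x + 2 * π := by
  have h3 := h.lt_add hκ h1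
  have h4 := h.lt_add hκ h2
  rw [h.per] at h4
  constructor <;> linarith

theorem rel' (h : Wit C M c κ φ v) (hC : Body C) (hκ : 0 < κ) (i : Fin 3) {x y t : ℤ}
    (hs : x + y = c i + t * M) (h1 : x < y) (h2 : y < x + M) :
    Phi C (v x) (v y) = φ i + π * t := by
  rcases Int.even_or_odd' t with ⟨s, rfl | rfl⟩
  · have h3 := h.rel i (x + (-s) * M) (y + (-s) * M) (by linear_combination hs) (by linarith)
      (by linarith)
    rw [h.add_mul, h.add_mul, Phi_add_int] at h3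
    push_cast at h3 ⊢
    linarith
  · have h3 := h.rel i (y + (-(s + 1)) * M) (x + (-s) * M) (by linear_combination hs)
      (by linarith) (by linarith)
    obtain ⟨d1, d2⟩ := h.dom hκ (x := y + (-(s + 1)) * M) (y := x + (-s) * M) (by linarith)
      (by linarith)
    have h4 := Phi_shift hC d1 d2
    rw [h3] at h4
    have h5 : v (y + (-(s + 1)) * M) + 2 * π = v y + 2 * π * ((-s : ℤ) : ℝ) := by
      rw [h.add_mul]
      push_cast
      ring
    rw [h5, h.add_mul, Phi_add_int] at h4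
    push_cast at h4 ⊢
    linarith

/-- choice of the representative of `c i - x` in `(x, x + M)` -/
theorem exists_rep {M : ℕ} (hM : 0 < M) (a x : ℤ) (h : ¬ (M : ℤ) ∣ 2 * x - a) :
    ∃ t y : ℤ, y = a - x + t * M ∧ x + y = a + t * M ∧ x < y ∧ y < x + M := by
  have hM' : (0 : ℤ) < M := by exact_mod_cast hM
  refine ⟨-((a - 2 * x) / M), x + (a - 2 * x) % M, ?_, ?_, ?_, ?_⟩
  · have := Int.emod_add_mul_ediv (a - 2 * x) M
    linear_combination this
  · have := Int.emod_add_mul_ediv (a - 2 * x) M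
    linear_combination this
  · have h1 : 0 ≤ (a - 2 * x) % M := Int.emod_nonneg _ hM'.ne'
    have h2 : (a - 2 * x) % M ≠ 0 := by
      intro h3
      apply h
      have h4 := Int.dvd_of_emod_eq_zero h3
      have h5 : 2 * x - a = -(a - 2 * x) := by ring
      rw [h5]
      exact (dvd_neg).mpr h4
    omega
  · have h1 := Int.emod_lt_of_pos (a - 2 * x) hM'
    omega

/-- comparison in a direction without segments -/
theorem flip_le (h : Wit C M c κ φ v) (h' : Wit C M c κ φ' w) (hC : Body C) (hM : 0 < M)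
    (hκ : 0 < κ) {i : Fin 3} (hφ : φ i = φ' i) (hS : NoSeg C (φ i)) {x : ℤ}
    (hx : ¬ (M : ℤ) ∣ 2 * x - c i) (hD : v x ≤ w x) : w (c i - x) ≤ v (c i - x) := by
  obtain ⟨t, y, hy, hs, h1, h2⟩ := exists_rep hM (c i) x hx
  by_contra hlt
  push Not at hlt
  have h3 : v y < w y := by
    rw [hy, h.add_mul, h'.add_mul]
    linarith
  obtain ⟨a1, a2⟩ := h.dom hκ h1 h2
  obtain ⟨b1, b2⟩ := h'.dom hκ h1 h2
  have e1 := h.rel' hC hκ i hs h1 h2
  have e2 := h'.rel' hC hκ i hs h1 h2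
  have h4 := Phi_strict hC a1 a2 b1 b2 hD h3.le (Or.inr h3) (by rw [e1]; exact noSeg_add_int hS t)
  rw [e1, e2, hφ] at h4
  exact lt_irrefl _ h4

/-- monotonicity of `φ k` -/
theorem mono_of (h : Wit C M c κ φ v) (h' : Wit C M c κ φ' w) (hC : Body C) (hM : 0 < M)
    (hκ : 0 < κ) {k : Fin 3} {x : ℤ}
    (hx : ¬ (M : ℤ) ∣ 2 * x - c k) (hD : v x ≤ w x) (hD' : v (c k - x) ≤ w (c k - x)) :
    φ k ≤ φ' k := by
  obtain ⟨t, y, hy, hs, h1, h2⟩ := exists_rep hM (c k) x hx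
  have h3 : v y ≤ w y := by
    rw [hy, h.add_mul, h'.add_mul]
    linarith
  obtain ⟨a1, a2⟩ := h.dom hκ h1 h2
  obtain ⟨b1, b2⟩ := h'.dom hκ h1 h2
  have e1 := h.rel' hC hκ k hs h1 h2
  have e2 := h'.rel' hC hκ k hs h1 h2
  have h4 := Phi_mono hC a1 a2 b1 b2 hD h3
  rw [e1, e2] at h4
  linarith

/-- the Lipschitz step -/
theorem step_lip (h : Wit C M c κ φ v) (h' : Wit C M c κ φ' w) (hC : Body C) (hM : 0 < M)
    (hκ : 0 < κ) {L : ℝ}
    (hL : ∀ θ a b, θ + κ ≤ a → a ≤ b → b ≤ θ + 2 * π - κ → Phi C θ b ≤ Phi C θ a + L * (b - a))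
    {j : Fin 3} (hφ : φ j < φ' j) {x : ℤ}
    (hx : ¬ (M : ℤ) ∣ 2 * x - c j) (hD : w x ≤ v x) :
    v (c j - x) ≤ w (c j - x) ∧ φ' j - φ j ≤ L * (w (c j - x) - v (c j - x)) := by
  obtain ⟨t, y, hy, hs, h1, h2⟩ := exists_rep hM (c j) x hx
  obtain ⟨a1, a2⟩ := h.dom hκ h1 h2
  obtain ⟨b1, b2⟩ := h'.dom hκ h1 h2
  have e1 := h.rel' hC hκ j hs h1 h2
  have e2 := h'.rel' hC hκ j hs h1 h2
  have hDy : w y - v y = w (c j - x) - v (c j - x) := by
    rw [hy, h.add_mul, h'.add_mul]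
    ring
  have h3 : v y < w y := by
    by_contra hle
    push Not at hle
    have h4 := Phi_mono hC b1 b2 a1 a2 hD hle
    rw [e1, e2] at h4
    linarith
  have g1 := h.lt_add hκ h1
  have g2 := h'.lt_add hκ h2
  rw [h'.per] at g2
  have h5 : Phi C (w x) (w y) ≤ Phi C (v x) (w y) :=
    Phi_mono hC b1 b2 (by linarith) (by linarith) hD le_rfl
  have h6 := hL (v x) (v y) (w y) g1 h3.le (by linarith)
  rw [e2] at h5
  rw [e1] at h6
  rw [← hDy]
  constructor
  · linarith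
  · linarith

end Wit

theorem fin3_cases : ∀ i j k : Fin 3, i ≠ j → i ≠ k → j ≠ k → ∀ m : Fin 3, m = i ∨ m = j ∨ m = k := by
  decide

theorem exists_wit {C : Set ℂ} {M : ℕ} {c : Fin 3 → ℤ} {κ : ℝ} {φ : Fin 3 → ℝ}
    (h : φ ∈ Zset C M c κ) : ∃ v, Wit C M c κ φ v := by
  obtain ⟨v, h1, h2, _, h4⟩ := h
  exact ⟨v, h1, h2, h4⟩

end Pool.Agent.H45.XR
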