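import Mathlib
import Pool.Agent.H36.XR.Base

set_option autoImplicit false

open MeasureTheory Set Filter Topology
open scoped Real ENNReal

namespace Pool.Agent.H45.XR

theorem Wit.cycle_bound {C : Set ℂ} {M : ℕ} {c : Fin 3 → ℤ} {κ : ℝ} {φ φ' : Fin 3 → ℝ}
    {v w : ℤ → ℝ} (h : Wit C M c κ φ v) (h' : Wit C M c κ φ' w) (hC : Body C) (hM : 0 < M)
    (hκ : 0 < κ) {L : ℝ} (hL0 : 0 ≤ L)
    (hL : ∀ θ a b, θ + κ ≤ a → a ≤ b → b ≤ θ + 2 * π - κ → Phi C θ b ≤ Phi C θ a + L * (b - a))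
    {i j : Fin 3} (hφ : φ i = φ' i) (hS : NoSeg C (φ i)) (x : ℤ)
    (h1 : ∀ n : ℤ, ¬ (M : ℤ) ∣ 2 * (x + n * (c j - c i)) - c i)
    (h2 : ∀ n : ℤ, ¬ (M : ℤ) ∣ 2 * (x + n * (c j - c i)) - c j) (hD : v x ≤ w x) :
    φ' j - φ j ≤ L * (w x - v x) := by
  by_cases hj : φ' j ≤ φ j
  · have : 0 ≤ L * (w x - v x) := mul_nonneg hL0 (by linarith)
    linarith
  push Not at hj
  have key : ∀ n : ℕ, v (x + n * (c j - c i)) ≤ w (x + n * (c j - c i)) ∧
      (1 ≤ n → φ' j - φ j ≤ L * (w (x + n * (c j - c i)) - v (x + n * (c j - c i)))) := by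
    intro n
    induction n with
    | zero => exact ⟨by simpa using hD, fun h => absurd h (by norm_num)⟩
    | succ n ih =>
      have a1 := h.flip_le h' hC hM hκ hφ hS (h1 n) ih.1
      have hx : ¬ (M : ℤ) ∣ 2 * (c i - (x + n * (c j - c i))) - c j := by
        intro hd
        apply h2 (n + 1)
        have : 2 * (x + ((n : ℤ) + 1) * (c j - c i)) - c j =
            -(2 * (c i - (x + n * (c j - c i))) - c j) := by ring
        rw [this]
        exact (dvd_neg).mpr hd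
      obtain ⟨a2, a3⟩ := h.step_lip h' hC hM hκ hL hj hx a1
      have e1 : c j - (c i - (x + n * (c j - c i))) = x + ((n + 1 : ℕ) : ℤ) * (c j - c i) := by
        push_cast
        ring
      rw [e1] at a2 a3
      exact ⟨a2, fun _ => a3⟩
  obtain ⟨_, b2⟩ := key M
  have b3 := b2 hM
  have e1 : x + (M : ℤ) * (c j - c i) = x + (c j - c i) * M := by ring
  rw [e1, h.add_mul, h'.add_mul] at b3
  have e2 : w x + 2 * π * ((c j - c i : ℤ) : ℝ) - (v x + 2 * π * ((c j - c i : ℤ) : ℝ)) = w x - v x := by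
    ring
  rwa [e2] at b3

/-- C2 -/
theorem cycle_case {C : Set ℂ} (hC : Body C) {M : ℕ} (hM : 0 < M) (c : Fin 3 → ℤ) {κ : ℝ}
    (hκ : 0 < κ) {i j k : Fin 3} (hij : i ≠ j) (hik : i ≠ k) (hjk : j ≠ k) (x : ℤ)
    (h1 : ∀ n : ℤ, ¬ (M : ℤ) ∣ 2 * (x + n * (c j - c i)) - c i)
    (h2 : ∀ n : ℤ, ¬ (M : ℤ) ∣ 2 * (x + n * (c j - c i)) - c j)
    (h3 : ∀ n : ℤ, ¬ (M : ℤ) ∣ 2 * (x + n * (c k - c i)) - c i)
    (h4 : ∀ n : ℤ, ¬ (M : ℤ) ∣ 2 * (x + n * (c k - c i)) - c k) :
    interior (Zset C M c κ) = ∅ := by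
  rw [Set.eq_empty_iff_forall_notMem]
  intro φs hφs
  obtain ⟨ε, hε, hball⟩ := Metric.isOpen_iff.mp isOpen_interior φs hφs
  obtain ⟨L, hL0, hL, _⟩ := Phi_lip hC hκ
  -- a direction without segments
  have hd : Dense {ψ : ℝ | NoSeg C ψ} := by
    have := (noSeg_countable hC).dense_compl ℝ
    simpa [Set.compl_ofPred] using this
  obtain ⟨ψ, hψ, hψε⟩ := hd.exists_mem_open (Metric.isOpen_ball (x := φs i) (ε := ε))
    ⟨φs i, Metric.mem_ball_self hε⟩
  let U : Set (ℝ × ℝ) := Metric.ball (φs j, φs k) ε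
  let Φ : ℝ × ℝ → Fin 3 → ℝ := fun q m => if m = i then ψ else if m = j then q.1 else q.2
  have Φi : ∀ q, Φ q i = ψ := fun q => by simp [Φ]
  have Φj : ∀ q, Φ q j = q.1 := fun q => by simp [Φ, hij.symm]
  have Φk : ∀ q, Φ q k = q.2 := fun q => by simp [Φ, hik.symm, hjk.symm]
  have hcase : ∀ m : Fin 3, m = i ∨ m = j ∨ m = k := fin3_cases i j k hij hik hjk
  have hmem : ∀ q ∈ U, Φ q ∈ Zset C M c κ := by
    intro q hq
    apply interior_subset
    apply hball
    rw [Metric.mem_ball, dist_pi_lt_iff hε]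
    intro m
    rw [Metric.mem_ball, Prod.dist_eq, max_lt_iff] at hq
    rcases hcase m with rfl | rfl | rfl
    · rw [Φi]
      exact hψε
    · rw [Φj]
      exact hq.1
    · rw [Φk]
      exact hq.2
  have hex : ∀ q : U, ∃ v, Wit C M c κ (Φ q) v := fun q => exists_wit (hmem q q.2)
  choose v hv using hex
  let W : U → ℝ := fun q => (1 + 2 * L) * v q x - (q : ℝ × ℝ).1 - (q : ℝ × ℝ).2
  -- one-sided estimate
  have est : ∀ q q' : U, v q x ≤ v q' x →
      |(q : ℝ × ℝ).1 - (q' : ℝ × ℝ).1| ≤ (L + 1) * |W q - W q'| ∧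
      |(q : ℝ × ℝ).2 - (q' : ℝ × ℝ).2| ≤ (L + 1) * |W q - W q'| := by
    intro q q' hD
    have hS : NoSeg C (Φ q i) := by rw [Φi]; exact hψ
    have hφ : Φ q i = Φ q' i := by rw [Φi, Φi]
    have a1 := (hv q).cycle_bound (hv q') hC hM hκ hL0 hL hφ hS x h1 h2 hD
    have a2 := (hv q).cycle_bound (hv q') hC hM hκ hL0 hL hφ hS x h3 h4 hD
    rw [Φj, Φj] at a1
    rw [Φk, Φk] at a2
    have hP : 0 ≤ v q' x - v q x := by linarith
    have hLP : 0 ≤ L * (v q' x - v q x) := mul_nonneg hL0 hP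
    have hW : W q' - W q = (1 + 2 * L) * (v q' x - v q x) -
        ((q' : ℝ × ℝ).1 - (q : ℝ × ℝ).1) - ((q' : ℝ × ℝ).2 - (q : ℝ × ℝ).2) := by
      simp only [W]
      ring
    have hexp : (1 + 2 * L) * (v q' x - v q x) = (v q' x - v q x) + 2 * (L * (v q' x - v q x)) := by
      ring
    rw [hexp] at hW
    have hW0 : v q' x - v q x ≤ W q' - W q := by
      rw [hW]
      linarith
    have hW1 : 0 ≤ W q' - W q := hP.trans hW0
    have hLW : L * (v q' x - v q x) ≤ L * (W q' - W q) := mul_le_mul_of_nonneg_left hW0 hL0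
    have hLW' : 0 ≤ L * (W q' - W q) := mul_nonneg hL0 hW1
    rw [abs_sub_comm (W q), abs_of_nonneg hW1]
    have hexp2 : (L + 1) * (W q' - W q) = L * (W q' - W q) + (W q' - W q) := by ring
    rw [hexp2]
    generalize W q' - W q = ΔW at *
    generalize L * ΔW = LW at *
    generalize L * (v q' x - v q x) = LP at *
    constructor
    · rw [abs_le]
      constructor <;> linarith
    · rw [abs_le]
      constructor <;> linarith
  have hanti : AntilipschitzWith ⟨L + 1, by positivity⟩ W := by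
    apply AntilipschitzWith.of_le_mul_dist
    intro q q'
    rw [Subtype.dist_eq, Prod.dist_eq, Real.dist_eq, Real.dist_eq, Real.dist_eq]
    change max _ _ ≤ (L + 1) * _
    rcases le_total (v q x) (v q' x) with hD | hD
    · obtain ⟨a1, a2⟩ := est q q' hD
      exact max_le a1 a2
    · obtain ⟨a1, a2⟩ := est q' q hD
      rw [abs_sub_comm, abs_sub_comm (W q')] at a1 a2
      exact max_le a1 a2
  have hdim := hanti.le_dimH_image (univ : Set U)
  have hU : dimH U = 2 := by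
    have hUi : (interior U).Nonempty := by
      rw [(Metric.isOpen_ball).interior_eq]
      exact ⟨_, Metric.mem_ball_self hε⟩
    rw [Real.dimH_of_nonempty_interior hUi]
    simp
  have hU' : dimH (univ : Set U) = dimH U := by
    have := (isometry_subtype_coe (s := U)).dimH_image (univ : Set U)
    rw [← this]
    congr 1
    simp
  rw [hU', hU] at hdim
  have h5 : dimH (W '' univ) ≤ dimH (univ : Set ℝ) := dimH_mono (subset_univ _)
  rw [Real.dimH_univ] at h5
  have h6 := hdim.trans h5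
  norm_num at h6

end Pool.Agent.H45.XR
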