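import Mathlib
import Pool.Agent.H36.XR.Base

set_option autoImplicit false

open MeasureTheory Set Filter Topology
open scoped Real ENNReal

namespace Pool.Agent.H45.XR

theorem Wit.le_add {C : Set ℂ} {M : ℕ} {c : Fin 3 → ℤ} {κ : ℝ} {φ φ' : Fin 3 → ℝ}
    {v w : ℤ → ℝ} (h : Wit C M c κ φ v) (h' : Wit C M c κ φ' w) (y t : ℤ) :
    v (y + t * M) ≤ w (y + t * M) ↔ v y ≤ w y := by
  rw [h.add_mul, h'.add_mul]
  constructor <;> intro h <;> linarith

theorem Wit.flip_path {C : Set ℂ} {n : ℕ} {c : Fin 3 → ℤ} {κ : ℝ} {φ φ' : Fin 3 → ℝ}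
    {v w : ℤ → ℝ} (h : Wit C (2 * n) c κ φ v) (h' : Wit C (2 * n) c κ φ' w) (hC : Body C)
    (hn : 0 < n) (hκ : 0 < κ) {m : Fin 3} (hφ : φ m = φ' m) (hS : NoSeg C (φ m))
    {x e' u d s t : ℤ} (he : IsCoprime e' (n : ℤ)) (hx : c m - (x + 2 * s * e') = x + 2 * t * e' + u * (2 * n : ℕ))
    (hd : s + t = d) (hdeg : ¬ (n : ℤ) ∣ 2 * s - d) (hD : v (x + 2 * s * e') ≤ w (x + 2 * s * e')) :
    w (x + 2 * t * e') ≤ v (x + 2 * t * e') := by
  have hdv : ¬ ((2 * n : ℕ) : ℤ) ∣ 2 * (x + 2 * s * e') - c m := by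
    rintro ⟨r, hr⟩
    apply hdeg
    apply he.symm.dvd_of_dvd_mul_right
    refine ⟨r + u, ?_⟩
    push_cast at hr hx
    have h1 : 2 * (s - t) * e' = 2 * n * (r + u) := by
      linear_combination hr + hx
    have h2 : (2 * s - d) * e' = (s - t) * e' := by
      rw [← hd]; ring
    rw [h2]
    have h3 : (2 : ℤ) * ((s - t) * e') = 2 * (n * (r + u)) := by linear_combination h1
    exact mul_left_cancel₀ (by norm_num) h3
  have h1 := h.flip_le h' hC (by omega) hκ hφ hS hdv hD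
  rw [hx] at h1
  exact (h'.le_add h _ _).mp h1

theorem Wit.mono_path {C : Set ℂ} {n : ℕ} {c : Fin 3 → ℤ} {κ : ℝ} {φ φ' : Fin 3 → ℝ}
    {v w : ℤ → ℝ} (h : Wit C (2 * n) c κ φ v) (h' : Wit C (2 * n) c κ φ' w) (hC : Body C)
    (hn : 0 < n) (hκ : 0 < κ) {m : Fin 3}
    {x e' u d s t : ℤ} (he : IsCoprime e' (n : ℤ)) (hx : c m - (x + 2 * s * e') = x + 2 * t * e' + u * (2 * n : ℕ))
    (hd : s + t = d) (hdeg : ¬ (n : ℤ) ∣ 2 * s - d) (hD : v (x + 2 * s * e') ≤ w (x + 2 * s * e'))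
    (hD' : v (x + 2 * t * e') ≤ w (x + 2 * t * e')) : φ m ≤ φ' m := by
  have hdv : ¬ ((2 * n : ℕ) : ℤ) ∣ 2 * (x + 2 * s * e') - c m := by
    rintro ⟨r, hr⟩
    apply hdeg
    apply he.symm.dvd_of_dvd_mul_right
    refine ⟨r + u, ?_⟩
    push_cast at hr hx
    have h1 : 2 * (s - t) * e' = 2 * n * (r + u) := by
      linear_combination hr + hx
    have h2 : (2 * s - d) * e' = (s - t) * e' := by
      rw [← hd]; ring
    rw [h2]
    have h3 : (2 : ℤ) * ((s - t) * e') = 2 * (n * (r + u)) := by linear_combination h1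
    exact mul_left_cancel₀ (by norm_num) h3
  refine h.mono_of h' hC (by omega) hκ hdv hD ?_
  rw [hx]
  exact (h.le_add h' _ _).mpr hD'

/-- two points of the bad set with the same `φ i`, `φ j` have the same `φ k` : one inequality -/
theorem Wit.path_eq {C : Set ℂ} {n : ℕ} (hn : 4 ≤ n) {c : Fin 3 → ℤ} {κ : ℝ} {φ φ' : Fin 3 → ℝ}
    {v w : ℤ → ℝ} (h : Wit C (2 * n) c κ φ v) (h' : Wit C (2 * n) c κ φ' w) (hC : Body C)
    (hκ : 0 < κ) {i j k : Fin 3} (hi : φ i = φ' i) (hSi : NoSeg C (φ i))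
    (hj : φ j = φ' j) (hSj : NoSeg C (φ j)) {x e' q : ℤ}
    (he : IsCoprime e' (n : ℤ)) (hcj : c j = c i + 2 * e')
    (hx : ((2 * n : ℕ) : ℤ) ∣ 2 * x - c i)
    (hk : ((2 * n : ℕ) : ℤ) ∣ c k - c i - 2 * q * e')
    (hq : (3 ≤ q ∧ q ≤ n - 2) ∨ (Even n ∧ q = n - 1)) (hD : v x ≤ w x) : φ k = φ' k := by
  obtain ⟨u, hu⟩ := hx
  obtain ⟨u', hu'⟩ := hk
  have key : ∀ s : ℕ, (2 * s + 1 ≤ n → v (x + 2 * (-(s : ℤ)) * e') ≤ w (x + 2 * (-(s : ℤ)) * e')) ∧
      (2 * (s + 1) ≤ n → w (x + 2 * ((s : ℤ) + 1) * e') ≤ v (x + 2 * ((s : ℤ) + 1) * e')) := by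
    intro s
    have stepB : ∀ s : ℕ, (v (x + 2 * (-(s : ℤ)) * e') ≤ w (x + 2 * (-(s : ℤ)) * e')) →
        (2 * (s + 1) ≤ n → w (x + 2 * ((s : ℤ) + 1) * e') ≤ v (x + 2 * ((s : ℤ) + 1) * e')) := by
      intro s h1 h2
      refine h.flip_path h' hC (by omega) hκ hj hSj he (u := -u) (d := 1) (s := -(s : ℤ)) ?_
        (by ring) ?_ h1
      · rw [hcj]
        linear_combination -hu
      · intro h3
        have h4 : (n : ℤ) ∣ 2 * s + 1 := by
          have : 2 * (s : ℤ) + 1 = -(2 * (-(s : ℤ)) - 1) := by ring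
          rw [this]
          exact (dvd_neg).mpr h3
        have := Int.le_of_dvd (by positivity) h4
        omega
    induction s with
    | zero =>
      have h0 : v (x + 2 * (-((0 : ℕ) : ℤ)) * e') ≤ w (x + 2 * (-((0 : ℕ) : ℤ)) * e') := by
        simpa using hD
      exact ⟨fun _ => h0, stepB 0 h0⟩
    | succ s ih =>
      have hA : 2 * (s + 1) + 1 ≤ n → v (x + 2 * (-((s + 1 : ℕ) : ℤ)) * e') ≤
          w (x + 2 * (-((s + 1 : ℕ) : ℤ)) * e') := by
        intro h1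
        have h2 := ih.2 (by omega)
        refine h'.flip_path h hC (by omega) hκ hi.symm (by rw [← hi]; exact hSi) he (u := -u)
          (d := 0) (s := (s : ℤ) + 1) ?_ (by push_cast; ring) ?_ h2
        · push_cast
          push_cast at hu
          linear_combination -hu
        · intro h3
          have h4 : (n : ℤ) ∣ 2 * ((s : ℤ) + 1) := by simpa using h3
          have := Int.le_of_dvd (by positivity) h4
          omega
      refine ⟨hA, ?_⟩
      intro h1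
      exact stepB (s + 1) (hA (by omega)) h1
  -- the two k-pairs
  have hup : φ k ≤ φ' k := by
    obtain ⟨a, b, hab, hb, hs⟩ : ∃ a b : ℕ, a < b ∧ 2 * b + 1 ≤ n ∧ (a : ℤ) + b = n - q := by
      rcases hq with ⟨h1, h2⟩ | ⟨h1, h2⟩
      · by_cases h3 : 2 * (n - q) + 1 ≤ n
        · exact ⟨0, (n - q).toNat, by omega, by omega, by omega⟩
        · exact ⟨(n - q - (n - 1) / 2).toNat, (n - 1) / 2, by omega, by omega, by omega⟩
      · exact ⟨0, 1, by omega, by omega, by omega⟩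
    have A1 := (key a).1 (by omega)
    have A2 := (key b).1 hb
    refine h.mono_path h' hC (by omega) hκ he (u := u' - u + e') (d := q - n) (s := -(a : ℤ)) (t := -(b : ℤ))
      ?_ (by linarith) ?_ A1 A2
    · have hb' : (b : ℤ) = n - q - a := by linarith
      rw [hb']
      push_cast
      push_cast at hu hu'
      linear_combination hu' - hu
    · intro h3
      have h4 : (n : ℤ) ∣ (b : ℤ) - a := by
        have h5 : 2 * (-(a : ℤ)) - (q - n) = b - a := by linarith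
        rwa [h5] at h3
      have := Int.le_of_dvd (by omega) h4
      omega
  have hdown : φ' k ≤ φ k := by
    obtain ⟨a, b, hab, hb, hs⟩ : ∃ a b : ℕ, a < b ∧ 2 * (b + 1) ≤ n ∧ ((a : ℤ) + 1) + (b + 1) = q := by
      rcases hq with ⟨h1, h2⟩ | ⟨h1, h2⟩
      · by_cases h3 : 2 * (q - 1) ≤ n
        · exact ⟨0, (q - 2).toNat, by omega, by omega, by omega⟩
        · exact ⟨(q - n / 2 - 1).toNat, n / 2 - 1, by omega, by omega, by omega⟩
      · obtain ⟨r, hr⟩ := h1
        exact ⟨r - 2, r - 1, by omega, by omega, by omega⟩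
    have A1 := (key a).2 (by omega)
    have A2 := (key b).2 hb
    refine h'.mono_path h hC (by omega) hκ he (u := u' - u) (d := q) (s := (a : ℤ) + 1)
      (t := (b : ℤ) + 1) ?_ (by linarith) ?_ A1 A2
    · have hb' : (b : ℤ) = q - a - 2 := by linarith
      rw [hb']
      push_cast
      push_cast at hu hu'
      linear_combination hu' - hu
    · intro h3
      have h4 : (n : ℤ) ∣ (b : ℤ) - a := by
        have h5 : (b : ℤ) - a = -(2 * ((a : ℤ) + 1) - q) := by linarith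
        rw [h5]
        exact (dvd_neg).mpr h3
      have := Int.le_of_dvd (by omega) h4
      omega
  exact le_antisymm hup hdown

/-- C3 -/
theorem path_case {C : Set ℂ} (hC : Body C) {n : ℕ} (hn : 4 ≤ n) (c : Fin 3 → ℤ) {κ : ℝ}
    (hκ : 0 < κ) {i j k : Fin 3} (hij : i ≠ j) (hik : i ≠ k) (hjk : j ≠ k) (x e' q : ℤ)
    (he : IsCoprime e' (n : ℤ)) (hj : c j = c i + 2 * e')
    (hx : ((2 * n : ℕ) : ℤ) ∣ 2 * x - c i)
    (hk : ((2 * n : ℕ) : ℤ) ∣ c k - c i - 2 * q * e')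
    (hq : (3 ≤ q ∧ q ≤ n - 2) ∨ (Even n ∧ q = n - 1)) :
    interior (Zset C (2 * n) c κ) = ∅ := by
  rw [Set.eq_empty_iff_forall_notMem]
  intro φs hφs
  obtain ⟨ε, hε, hball⟩ := Metric.isOpen_iff.mp isOpen_interior φs hφs
  have hd : Dense {ψ : ℝ | NoSeg C ψ} := by
    have := (noSeg_countable hC).dense_compl ℝ
    simpa [Set.compl_ofPred] using this
  obtain ⟨ψ, hψ, hψε⟩ := hd.exists_mem_open (Metric.isOpen_ball (x := φs i) (ε := ε))
    ⟨φs i, Metric.mem_ball_self hε⟩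
  obtain ⟨χ, hχ, hχε⟩ := hd.exists_mem_open (Metric.isOpen_ball (x := φs j) (ε := ε))
    ⟨φs j, Metric.mem_ball_self hε⟩
  let Φ : ℝ → Fin 3 → ℝ := fun q m => if m = i then ψ else if m = j then χ else q
  have Φi : ∀ q, Φ q i = ψ := fun q => by simp [Φ]
  have Φj : ∀ q, Φ q j = χ := fun q => by simp [Φ, hij.symm]
  have Φk : ∀ q, Φ q k = q := fun q => by simp [Φ, hik.symm, hjk.symm]
  have hmem : ∀ q, dist q (φs k) < ε → Φ q ∈ Zset C (2 * n) c κ := by
    intro q hq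
    apply interior_subset
    apply hball
    rw [Metric.mem_ball, dist_pi_lt_iff hε]
    intro m
    rcases fin3_cases i j k hij hik hjk m with rfl | rfl | rfl
    · rw [Φi]
      exact hψε
    · rw [Φj]
      exact hχε
    · rw [Φk]
      exact hq
  obtain ⟨v, hv⟩ := exists_wit (hmem (φs k) (by simpa using hε))
  obtain ⟨w, hw⟩ := exists_wit (hmem (φs k + ε / 2) (by
    rw [Real.dist_eq]
    have : φs k + ε / 2 - φs k = ε / 2 := by ring
    rw [this, abs_of_pos (by linarith)]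
    linarith))
  have hfin : Φ (φs k) k = Φ (φs k + ε / 2) k := by
    rcases le_total (v x) (w x) with hD | hD
    · exact hv.path_eq hn hw hC hκ (i := i) (j := j) (by rw [Φi, Φi]) (by rw [Φi]; exact hψ)
        (by rw [Φj, Φj]) (by rw [Φj]; exact hχ) he hj hx hk hq hD
    · exact (hw.path_eq hn hv hC hκ (i := i) (j := j) (by rw [Φi, Φi]) (by rw [Φi]; exact hψ)
        (by rw [Φj, Φj]) (by rw [Φj]; exact hχ) he hj hx hk hq hD).symm
  rw [Φk, Φk] at hfin
  linarith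

end Pool.Agent.H45.XR
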